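import Mathlib

/-!
Exterior powers of matrices, and the theorem of Kolchin.
-/

namespace Pool.Agent.MP_f7db47_al.GK

/-- The exterior power of a matrix. -/
noncomputable def KExt_hom (F : Type) [Field F] (n j : ℕ) [Fintype (Set.powersetCard (Fin n) j)]
    [DecidableEq (Set.powersetCard (Fin n) j)] :
    Matrix (Fin n) (Fin n) F →*
      Matrix (Set.powersetCard (Fin n) j) (Set.powersetCard (Fin n) j) F where
  toFun M := LinearMap.toMatrix ((Pi.basisFun F (Fin n)).exteriorPower j)
    ((Pi.basisFun F (Fin n)).exteriorPower j) (exteriorPower.map j (Matrix.toLin' M))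
  map_one' := by
    rw [Matrix.toLin'_one, exteriorPower.map_id, LinearMap.toMatrix_id]
  map_mul' M N := by
    rw [Matrix.toLin'_mul, exteriorPower.map_comp,
      LinearMap.toMatrix_comp _ ((Pi.basisFun F (Fin n)).exteriorPower j)]

lemma KExt_diag (F : Type) [Field F] (n j : ℕ) [Fintype (Set.powersetCard (Fin n) j)]
    [DecidableEq (Set.powersetCard (Fin n) j)] (M : Matrix (Fin n) (Fin n) F)
    (s : Set.powersetCard (Fin n) j) :
    KExt_hom F n j M s s =
      (M.submatrix (Subtype.val : s.1 → Fin n) (Subtype.val : s.1 → Fin n)).det := by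
  change LinearMap.toMatrix _ _ _ s s = _
  rw [LinearMap.toMatrix_apply, exteriorPower.basis_repr_apply, exteriorPower.basis_apply,
    exteriorPower.map_apply_ιMulti_family, exteriorPower.ιMulti_family,
    exteriorPower.ιMultiDual_apply_ιMulti, ← Matrix.det_transpose,
    ← Matrix.det_submatrix_equiv_self (s.1.orderIsoOfFin s.2).toEquiv]
  congr 1
  ext a b
  simp [Set.powersetCard.ofFinEmbEquiv_symm_apply] <;> rfl

theorem exists_ext (F : Type) [Field F] (n j : ℕ) (hj : j ≤ n) :
    ∃ (κ : Type) (_ : Fintype κ) (_ : DecidableEq κ)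
      (Λ : Matrix (Fin n) (Fin n) F →* Matrix κ κ F),
      ∀ M, (Λ M).trace = (-1) ^ j * M.charpoly.coeff (n - j) := by
  classical
  let _ : Fintype (Set.powersetCard (Fin n) j) := Fintype.ofFinite _
  refine ⟨Set.powersetCard (Fin n) j, inferInstance, inferInstance, KExt_hom F n j, fun M => ?_⟩
  have h := Matrix.charpoly_coeff_eq_sum_minors M j (by simpa using hj)
  rw [Fintype.card_fin] at h
  rw [h, ← mul_assoc, ← mul_pow, neg_one_mul, neg_neg, one_pow, one_mul, Matrix.trace]
  simp only [Matrix.diag_apply, KExt_diag]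
  symm
  refine Finset.sum_subtype (Finset.univ.powersetCard j) (fun s => ?_)
    (fun s : Finset (Fin n) =>
      (M.submatrix (Subtype.val : s → Fin n) (Subtype.val : s → Fin n)).det)
  simp [Finset.mem_powersetCard, Set.powersetCard]

end Pool.Agent.MP_f7db47_al.GK
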