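import Mathlib

/-!
The theorem of Kolchin.
-/

namespace Pool.Agent.MP_f7db47_al.GK

/-- The theorem of Burnside on irreducible algebras of endomorphisms. -/
theorem KKol_burnside {E V : Type} [Field E] [IsAlgClosed E] [AddCommGroup V] [Module E V]
    [FiniteDimensional E V] (A : Subalgebra E (Module.End E V)) [IsSimpleModule A V]
    (x : Module.End E V) : x ∈ A := by
  classical
  have hb := (IsSimpleModule.algebraMap_end_bijective_of_isAlgClosed (A := A) (V := V) E).2
  let f : Module.End (Module.End A V) V :=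
    { toFun := x
      map_add' := x.map_add
      map_smul' := fun φ v => by
        obtain ⟨c, rfl⟩ := hb φ
        simp }
  let b := Module.finBasis E V
  obtain ⟨r, hr⟩ := jacobson_density f (Finset.univ.image b)
  have : x = (r : Module.End E V) := b.ext fun i =>
    hr (b i) (Finset.mem_image_of_mem _ (Finset.mem_univ i))
  rw [this]
  exact r.2

theorem KKol_simple {G E V : Type} [Group G] [Field E] [IsAlgClosed E] [AddCommGroup V]
    [Module E V] [FiniteDimensional E V] [Nontrivial V] (ρ : G →* Module.End E V)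
    (h : ∀ g, IsNilpotent (ρ g - 1))
    (hs : ∀ W : Submodule E V, (∀ g, W ≤ W.comap (ρ g)) → W = ⊥ ∨ W = ⊤) (g : G) :
    ρ g - 1 = 0 := by
  let A : Subalgebra E (Module.End E V) :=
    Algebra.adjoin E (MonoidHom.mrange ρ : Set (Module.End E V))
  have hA : ∀ g, ρ g ∈ A := fun g => Algebra.subset_adjoin ⟨g, rfl⟩
  haveI : IsSimpleModule A V := by
    rw [isSimpleModule_iff]
    refine ⟨fun U => ?_⟩
    rcases hs (U.restrictScalars E) (fun g v hv => U.smul_mem (⟨ρ g, hA g⟩ : A) hv) with h1 | h1
    · exact Or.inl ((Submodule.restrictScalars_eq_bot_iff E A V).1 h1)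
    · exact Or.inr ((Submodule.restrictScalars_eq_top_iff E A V).1 h1)
  have ht : ∀ g, LinearMap.trace E V (ρ g) = LinearMap.trace E V 1 := fun g => by
    have := (LinearMap.isNilpotent_trace_of_isNilpotent (h g)).eq_zero
    rwa [map_sub, sub_eq_zero] at this
  have hz : ∀ x : Module.End E V, LinearMap.trace E V ((ρ g - 1) * x) = 0 := fun x => by
    have hx : x ∈ Subalgebra.toSubmodule A := KKol_burnside A x
    rw [Algebra.adjoin_eq_span, Submonoid.closure_eq] at hx
    induction hx using Submodule.span_induction with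
    | mem y hy =>
      obtain ⟨k, rfl⟩ := hy
      rw [sub_mul, one_mul, ← map_mul, map_sub, ht, ht, sub_self]
    | zero => simp
    | add y z _ _ hy hz => rw [mul_add, map_add, hy, hz, add_zero]
    | smul c y _ hy => rw [mul_smul_comm, map_smul, hy, smul_zero]
  ext v
  rw [LinearMap.zero_apply, ← Module.forall_dual_apply_eq_zero_iff E]
  intro φ
  have h1 := hz (φ.smulRight v)
  have h2 : (ρ g - 1) * φ.smulRight v = φ.smulRight ((ρ g - 1) v) := by
    ext w
    simp only [Module.End.mul_apply, LinearMap.smulRight_apply, map_smul]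
  rwa [h2, LinearMap.trace_smulRight] at h1

theorem KKol_int {G E V V' : Type} [Group G] [Field E] [AddCommGroup V] [Module E V]
    [AddCommGroup V'] [Module E V'] (ρ : G →* Module.End E V) (ρ' : G →* Module.End E V')
    (T : V →ₗ[E] V') (hT : ∀ g v, T (ρ g v) = ρ' g (T v)) (l : List G) (v : V) :
    T ((l.map fun g => ρ g - 1).prod v) = (l.map fun g => ρ' g - 1).prod (T v) := by
  induction l with
  | nil => simp
  | cons g l ih =>
    simp only [List.map_cons, List.prod_cons, Module.End.mul_apply, LinearMap.sub_apply,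
      Module.End.one_apply, map_sub, hT, ih]

theorem KKol_pow {G E V V' : Type} [Group G] [Field E] [AddCommGroup V] [Module E V]
    [AddCommGroup V'] [Module E V'] (ρ : G →* Module.End E V) (ρ' : G →* Module.End E V')
    (T : V →ₗ[E] V') (hT : ∀ g v, T (ρ g v) = ρ' g (T v)) (g : G) (k : ℕ) (v : V) :
    T (((ρ g - 1) ^ k) v) = ((ρ' g - 1) ^ k) (T v) := by
  have := KKol_int ρ ρ' T hT (List.replicate k g) v
  simpa only [List.map_replicate, List.prod_replicate] using this

theorem KKol_rep {G E : Type} [Group G] [Field E] [IsAlgClosed E] (d : ℕ) :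
    ∀ (V : Type) [AddCommGroup V] [Module E V] [FiniteDimensional E V],
      Module.finrank E V < d → ∀ ρ : G →* Module.End E V, (∀ g, IsNilpotent (ρ g - 1)) →
      ∃ c : ℕ, ∀ l : List G, l.length = c → (l.map fun g => ρ g - 1).prod = 0 := by
  induction d with
  | zero => intro V _ _ _ hd; omega
  | succ d ih =>
    intro V _ _ _ hd ρ h
    rcases subsingleton_or_nontrivial V with hV | hV
    · exact ⟨0, fun l _ => Subsingleton.elim _ _⟩
    by_cases hs : ∀ W : Submodule E V, (∀ g, W ≤ W.comap (ρ g)) → W = ⊥ ∨ W = ⊤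
    · refine ⟨1, fun l hl => ?_⟩
      obtain ⟨g, rfl⟩ := List.length_eq_one_iff.1 hl
      simpa using KKol_simple ρ h hs g
    push Not at hs
    obtain ⟨W, hW, hb, ht⟩ := hs
    have h1 : Module.finrank E W < d := by
      have := Submodule.finrank_lt ht
      omega
    have h2 : Module.finrank E (V ⧸ W) < d := by
      have a := W.finrank_quotient_add_finrank
      have b : Module.finrank E W ≠ 0 := fun h0 => hb (Submodule.finrank_eq_zero.1 h0)
      omega
    let σ : G →* Module.End E W := Representation.subrepresentation ρ W hW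
    let τ : G →* Module.End E (V ⧸ W) := Representation.quotient ρ W hW
    have hσ : ∀ g (v : W), W.subtype (σ g v) = ρ g (W.subtype v) := fun g v => rfl
    have hτ : ∀ g (v : V), W.mkQ (ρ g v) = τ g (W.mkQ v) := fun g v => rfl
    obtain ⟨c1, hc1⟩ := ih W h1 σ fun g => by
      obtain ⟨k, hk⟩ := h g
      refine ⟨k, LinearMap.ext fun v => W.subtype_injective ?_⟩
      rw [KKol_pow σ ρ W.subtype hσ, hk]
      simp
    obtain ⟨c2, hc2⟩ := ih (V ⧸ W) h2 τ fun g => by
      obtain ⟨k, hk⟩ := h g
      refine ⟨k, LinearMap.ext fun v => ?_⟩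
      obtain ⟨v, rfl⟩ := W.mkQ_surjective v
      rw [← KKol_pow ρ τ W.mkQ hτ, hk]
      simp
    refine ⟨c1 + c2, fun l hl => ?_⟩
    rw [← List.take_append_drop c1 l, List.map_append, List.prod_append]
    ext v
    have e1 : ((l.drop c1).map fun g => ρ g - 1).prod v ∈ W := by
      rw [← Submodule.Quotient.mk_eq_zero, ← Submodule.mkQ_apply, KKol_int ρ τ W.mkQ hτ,
        hc2 _ (by rw [List.length_drop]; omega)]
      rfl
    have e2 := KKol_int σ ρ W.subtype hσ (l.take c1) ⟨_, e1⟩
    rw [hc1 _ (by rw [List.length_take]; omega)] at e2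
    rw [Module.End.mul_apply, LinearMap.zero_apply]
    simpa using e2.symm

theorem kolchin {G K : Type} [Group G] [Field K] {n : ℕ} (f : G →* Matrix (Fin n) (Fin n) K)
    (h : ∀ g, IsNilpotent (f g - 1)) :
    ∃ c : ℕ, ∀ l : List G, l.length = c → (l.map fun g => f g - 1).prod = 0 := by
  let E := AlgebraicClosure K
  let φ : Matrix (Fin n) (Fin n) K →+* Module.End E (Fin n → E) :=
    (Matrix.toLinAlgEquiv' (R := E) (n := Fin n)).toAlgHom.toRingHom.comp
      (algebraMap K E).mapMatrix
  have hφ : Function.Injective φ :=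
    (Matrix.toLinAlgEquiv' (R := E) (n := Fin n)).injective.comp
      (Matrix.map_injective (algebraMap K E).injective)
  have e : ∀ g, (φ.toMonoidHom.comp f) g - 1 = φ (f g - 1) := fun g => by
    rw [map_sub, map_one]
    rfl
  obtain ⟨c, hc⟩ := KKol_rep (G := G) (E := E) _ (Fin n → E) (Nat.lt_succ_self _)
    (φ.toMonoidHom.comp f) fun g => by
      rw [e]
      exact (h g).map φ
  refine ⟨c, fun l hl => hφ ?_⟩
  rw [map_zero, map_list_prod, List.map_map, ← hc l hl]
  congr 1
  exact List.map_congr_left fun g _ => (e g).symm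

end Pool.Agent.MP_f7db47_al.GK
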