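import Pool.Agent.MP_f7db47_al.GK.KKol
import Pool.Agent.MP_f7db47_al.GS.Uni1
import Pool.Agent.MP_f7db47_al.GS.Uni2
import Pool.Agent.MP_f7db47_al.GF.DF

/-!
Groups of quasi-unipotent matrices are virtually unipotent.
-/

namespace Pool.Agent.MP_f7db47_al.GK

theorem KUni_core (p : ℕ) [Fact p.Prime] {A k : Type} [CommRing A] [IsDomain A] [CharP A p]
    [Field k] [CharP k p] (φ : A →+* k) {n m : ℕ} (hm : 0 < m) (x : Matrix (Fin n) (Fin n) A)
    (h1 : φ.mapMatrix x = 1) (h : IsNilpotent (x ^ m - 1)) : IsNilpotent (x - 1) := by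
  rcases isEmpty_or_nonempty (Fin n) with hn | hn
  · exact ⟨1, Subsingleton.elim _ _⟩
  obtain ⟨a, r, hr, rfl⟩ := Nat.exists_eq_pow_mul_and_not_dvd hm.ne' p (Fact.out : p.Prime).ne_one
  have h2 : x ^ (p ^ a * r) - 1 = (x ^ r - 1) ^ p ^ a := by
    rw [sub_pow_char_pow_of_commute p a (Commute.one_right _), one_pow, ← pow_mul, mul_comm]
  rw [h2] at h
  obtain ⟨N, hN⟩ := h.of_pow
  have h3 : Commute (x - 1) (∑ i ∈ Finset.range r, x ^ i) :=
    Commute.sum_right _ _ _ fun i _ =>
      ((Commute.refl x).sub_left (Commute.one_left x)).pow_right i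
  rw [← mul_geom_sum, h3.mul_pow] at hN
  have h4 : ((∑ i ∈ Finset.range r, x ^ i) ^ N).det ≠ 0 := fun e => by
    have h5 := congrArg φ e
    rw [RingHom.map_det, map_pow, map_sum, map_zero] at h5
    simp only [map_pow, h1, one_pow, Finset.sum_const, Finset.card_range] at h5
    rw [Matrix.det_pow, ← Nat.cast_smul_eq_nsmul k, Matrix.det_smul, Matrix.det_one,
      mul_one] at h5
    exact hr ((CharP.cast_eq_zero_iff k p r).1 (eq_zero_of_pow_eq_zero (eq_zero_of_pow_eq_zero h5)))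
  refine ⟨N, (smul_eq_zero_iff_right h4).1 ?_⟩
  rw [← mul_one ((x - 1) ^ N), ← Matrix.mul_smul, ← Matrix.mul_adjugate, ← mul_assoc, hN, zero_mul]

theorem KUni_unipP (p : ℕ) [Fact p.Prime] {G K : Type} [Group G] [Group.FG G] [Field K]
    [CharP K p] {n : ℕ} (f : G →* GL (Fin n) K)
    (h : ∀ g, ∃ m, 0 < m ∧ IsNilpotent ((f g).val ^ m - 1)) :
    ∃ U : Subgroup G, U.FiniteIndex ∧ ∀ g ∈ U, IsNilpotent ((f g).val - 1) := by
  obtain ⟨A, f₀, hA, hf⟩ := GN.exists_fg_subring ‹_› K n f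
  obtain ⟨Q, hQ⟩ := Ideal.exists_maximal A
  let := Ideal.Quotient.field Q
  have hc : CharP (A ⧸ Q) p := (CharP.charP_iff_prime_eq_zero Fact.out).2 (by
    rw [← map_natCast (Ideal.Quotient.mk Q), CharP.cast_eq_zero, map_zero])
  let := ZMod.algebra (A ⧸ Q) p
  have h1 : Algebra.FiniteType ℤ (A ⧸ Q) :=
    hA.of_surjective (Ideal.Quotient.mk Q).toIntAlgHom Ideal.Quotient.mk_surjective
  have h2 : Algebra.FiniteType (ZMod p) (A ⧸ Q) :=
    Algebra.FiniteType.of_restrictScalars_finiteType ℤ _ _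
  have h3 : Module.Finite (ZMod p) (A ⧸ Q) := finite_of_finite_type_of_isJacobsonRing _ _
  have h4 : Finite (A ⧸ Q) := Module.finite_of_finite (ZMod p)
  have h5 : Function.Injective (A.subtype.mapMatrix (m := Fin n)) :=
    Matrix.map_injective A.subtype_injective
  refine ⟨((Matrix.GeneralLinearGroup.map (Ideal.Quotient.mk Q)).comp f₀).ker, inferInstance,
    fun g hg => ?_⟩
  obtain ⟨m, hm, h6⟩ := h g
  have h7 : (f g).val = A.subtype.mapMatrix (f₀ g).val := by rw [← hf]; rfl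
  rw [h7, ← map_one (A.subtype.mapMatrix (m := Fin n))] at h6 ⊢
  rw [← map_pow, ← map_sub, IsNilpotent.map_iff h5] at h6
  rw [← map_sub, IsNilpotent.map_iff h5]
  exact KUni_core p (Ideal.Quotient.mk Q) hm _ (congrArg Units.val hg) h6

theorem KUni_map {A B : Type} [CommRing A] [CommRing B] (φ : A →+* B) {G : Type} [Group G] {n : ℕ}
    (f : G →* GL (Fin n) A) (l : List G) :
    φ.mapMatrix (l.map fun g => (f g).val - 1).prod =
      (l.map fun g => ((Matrix.GeneralLinearGroup.map φ).comp f g).val - 1).prod := by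
  rw [map_list_prod, List.map_map]
  congr 2
  funext g
  rw [Function.comp_apply, map_sub, map_one]
  rfl

theorem KUni_qu {A B : Type} [CommRing A] [CommRing B] (φ : A →+* B) {G : Type} [Group G] {n : ℕ}
    (f : G →* GL (Fin n) A) (h : ∀ g, GF.QU (f g).val) (g : G) :
    GF.QU ((Matrix.GeneralLinearGroup.map φ).comp f g).val := by
  obtain ⟨m, hm, h1⟩ := h g
  refine ⟨m, hm, ?_⟩
  have h2 := h1.map (φ.mapMatrix (m := Fin n))
  rwa [map_sub, map_pow, map_one] at h2

theorem KUni_field {K : Type} [Field K] {G : Type} [Group G] [Group.FG G] {n : ℕ}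
    (f : G →* GL (Fin n) K) (h : ∀ g, GF.QU (f g).val) :
    ∃ (U : Subgroup G) (c : ℕ), U.FiniteIndex ∧ ∀ l : List G, l.length = c → (∀ g ∈ l, g ∈ U) →
      (l.map fun g => (f g).val - 1).prod = 0 := by
  obtain ⟨p, hp⟩ := CharP.exists K
  rcases CharP.char_is_prime_or_zero K p with h0 | rfl
  · have := Fact.mk h0
    obtain ⟨U, hU, h1⟩ := KUni_unipP p f h
    obtain ⟨c, h2⟩ := kolchin (((Units.coeHom _).comp f).comp U.subtype) fun g => h1 g.1 g.2
    refine ⟨U, c, hU, fun l hl hm => ?_⟩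
    lift l to List U using hm
    rw [List.map_map]
    exact h2 l (by simpa using hl)
  · have := CharP.charP_to_charZero K
    obtain ⟨U, J, c, hU, h1, -, h2⟩ := GS.exists_unip ((Units.coeHom _).comp f)
      (GS.finite_traces f h)
    refine ⟨U, c, hU, fun l hl hm => h2 _ (by simpa using hl) fun a ha => ?_⟩
    obtain ⟨g, hg, rfl⟩ := List.mem_map.1 ha
    exact h1 g (hm g hg)

theorem KUni_pow {A G : Type} [CommRing A] {n : ℕ} (N : Ideal A) (F : G → Matrix (Fin n) (Fin n) A)
    (P : G → Prop) (c : ℕ)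
    (h : ∀ l : List G, l.length = c → (∀ g ∈ l, P g) → ∀ a b, (l.map F).prod a b ∈ N) (i : ℕ) :
    ∀ l : List G, l.length = c * i → (∀ g ∈ l, P g) → ∀ a b, (l.map F).prod a b ∈ N ^ i := by
  induction i with
  | zero => intro l _ _ a b; simp
  | succ i ih =>
    intro l hl hm a b
    rw [← List.take_append_drop c l, List.map_append, List.prod_append, Matrix.mul_apply, pow_succ']
    refine Ideal.sum_mem _ fun j _ => Ideal.mul_mem_mul
      (h _ ?_ (fun g hg => hm g (List.mem_of_mem_take hg)) a j)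
      (ih _ ?_ (fun g hg => hm g (List.mem_of_mem_drop hg)) j b)
    · rw [List.length_take, hl, mul_add, mul_one]
      omega
    · rw [List.length_drop, hl, mul_add, mul_one]
      omega

theorem unip_dom (A : Type) [CommRing A] [IsDomain A] (hA : Algebra.FiniteType ℤ A) {G : Type}
    [Group G] [Group.FG G] {n : ℕ} (f : G →* GL (Fin n) A) (h : ∀ g, GF.QU (f g).val) :
    ∃ (U : Subgroup G) (c : ℕ), U.FiniteIndex ∧ ∀ l : List G, l.length = c → (∀ g ∈ l, g ∈ U) →
      (l.map fun g => (f g).val - 1).prod = 0 := by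
  obtain ⟨U, c, hU, h1⟩ := KUni_field _ (KUni_qu (algebraMap A (FractionRing A)) f h)
  refine ⟨U, c, hU, fun l hl hm => ?_⟩
  have h5 : Function.Injective ((algebraMap A (FractionRing A)).mapMatrix (m := Fin n)) :=
    Matrix.map_injective (IsFractionRing.injective A _)
  exact h5 (by rw [KUni_map, h1 l hl hm, map_zero])

theorem unip_ring (A : Type) [CommRing A] {G : Type} [Group G] [Group.FG G] {n : ℕ}
    (f : G →* GL (Fin n) A) (h : ∀ g, GF.QU (f g).val) :
    ∃ (U : Subgroup G) (c : ℕ), U.FiniteIndex ∧ ∀ l : List G, l.length = c → (∀ g ∈ l, g ∈ U) →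
      (l.map fun g => (f g).val - 1).prod = 0 := by
  obtain ⟨B, f₀, hB, hf⟩ := GN.exists_fg_subring ‹_› A n f
  have h5 : Function.Injective (B.subtype.mapMatrix (m := Fin n)) :=
    Matrix.map_injective B.subtype_injective
  have e : ∀ g, (f g).val = B.subtype.mapMatrix (f₀ g).val := fun g => hf g ▸ rfl
  have h0 : ∀ g, GF.QU (f₀ g).val := fun g => by
    obtain ⟨m, hm, h1⟩ := h g
    refine ⟨m, hm, (IsNilpotent.map_iff h5).1 ?_⟩
    rwa [map_sub, map_pow, map_one, ← e]
  have hno : IsNoetherianRing B := Algebra.FiniteType.isNoetherianRing ℤ B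
  have hfin : Finite (minimalPrimes B) := (minimalPrimes.finite_of_isNoetherianRing B).to_subtype
  have := Fintype.ofFinite (minimalPrimes B)
  choose U c hU h1 using fun Q : minimalPrimes B =>
    have := Ideal.IsMinimalPrime.isPrime Q.2
    unip_dom (B ⧸ Q.1)
      (hB.of_surjective (Ideal.Quotient.mk Q.1).toIntAlgHom Ideal.Quotient.mk_surjective) _
      (KUni_qu (Ideal.Quotient.mk Q.1) f₀ h0)
  obtain ⟨d, hd⟩ := IsNoetherianRing.isNilpotent_nilradical B
  have key := KUni_pow (nilradical B) (fun g => (f₀ g).val - 1) (· ∈ ⨅ Q, U Q) (∑ Q, c Q)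
    (fun l hl hm a b => by
      rw [nilradical, ← Ideal.sInf_minimalPrimes, Ideal.mem_sInf]
      intro Q hQ
      have h2 : c ⟨Q, hQ⟩ ≤ l.length :=
        hl ▸ Finset.single_le_sum (f := c) (fun _ _ => Nat.zero_le _) (Finset.mem_univ _)
      have h3 := h1 ⟨Q, hQ⟩ (l.take (c ⟨Q, hQ⟩)) (by rw [List.length_take]; omega)
        fun g hg => Subgroup.mem_iInf.1 (hm g (List.mem_of_mem_take hg)) _
      have h4 := KUni_map (Ideal.Quotient.mk Q) f₀ l
      conv_rhs at h4 =>
        rw [← List.take_append_drop (c ⟨Q, hQ⟩) l, List.map_append, List.prod_append, h3, zero_mul]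
      exact Ideal.Quotient.eq_zero_iff_mem.1 (congrFun (congrFun h4 a) b)) d
  refine ⟨⨅ Q, U Q, (∑ Q, c Q) * d, Subgroup.finiteIndex_iInf hU, fun l hl hm => ?_⟩
  have h6 : (l.map fun g => (f₀ g).val - 1).prod = 0 := by
    refine Matrix.ext fun a b => ?_
    have := key l hl hm a b
    rw [hd] at this
    exact (Submodule.mem_bot _).1 this
  have h7 := KUni_map B.subtype f₀ l
  rw [h6, map_zero] at h7
  simp only [MonoidHom.comp_apply, hf] at h7
  exact h7.symm

end Pool.Agent.MP_f7db47_al.GK
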